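import Pool.Agent.helper18.HG.Spec

set_option autoImplicit false

namespace Pool.Agent.helper18.HG

open Finset Filter Topology

lemma BDD_summable (g : ℕ → ℂ) (M : ℝ) (hg : ∀ n, ‖g n‖ ≤ M) (z : ℂ) (hz : ‖z‖ < 1) :
    Summable (fun n => ‖g n * z ^ n‖) := by
  have h1 : Summable (fun n : ℕ => M * ‖z‖ ^ n) :=
    (summable_geometric_of_lt_one (norm_nonneg z) hz).mul_left M
  refine Summable.of_nonneg_of_le (fun n => norm_nonneg _) (fun n => ?_) h1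
  rw [norm_mul, norm_pow]
  exact mul_le_mul_of_nonneg_right (hg n) (pow_nonneg (norm_nonneg z) n)

/-- The bound for a radius `r < 1`. -/
lemma BDD_radius (hPAR : PAR_stmt) (g : ℕ → ℂ) (M K : ℝ) (hg : ∀ n, ‖g n‖ ≤ M)
    (hK : ∀ z : ℂ, ‖z‖ < 1 → ‖∑' n, g n * z ^ n‖ ≤ K) (r : ℝ) (hr0 : 0 < r) (hr1 : r < 1) (m : ℕ) :
    ∑ n ∈ range m, ‖g n‖ ^ 2 * r ^ (2 * n) ≤ (K + 1) ^ 2 := by
  have hK0 : 0 ≤ K := le_trans (norm_nonneg _) (hK 0 (by simp))
  have hrn : ‖(r : ℂ)‖ < 1 := by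
    rw [Complex.norm_real, Real.norm_eq_abs, abs_of_pos hr0]; exact hr1
  have hS : Summable (fun n => ‖g n * (r : ℂ) ^ n‖) := BDD_summable g M hg _ hrn
  -- the tail
  have htail : Tendsto (fun N : ℕ => ∑' n, ‖g (n + N) * (r : ℂ) ^ (n + N)‖) atTop (𝓝 0) :=
    tendsto_sum_nat_add (fun n => ‖g n * (r : ℂ) ^ n‖)
  have hev : ∀ᶠ N : ℕ in atTop, ∑' n, ‖g (n + N) * (r : ℂ) ^ (n + N)‖ < 1 :=
    htail.eventually (gt_mem_nhds one_pos)
  obtain ⟨N, hN1, hNm⟩ := (hev.and (eventually_ge_atTop (max m 1))).exists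
  have hNm' : m ≤ N := le_trans (le_max_left _ _) hNm
  have hN1' : 1 ≤ N := le_trans (le_max_right _ _) hNm
  have hNpos : (0 : ℝ) < N := by exact_mod_cast hN1'
  have hP := hPAR N (fun n => g n * (r : ℂ) ^ n) hN1'
  have hterm : ∀ j ∈ range N, ‖∑ n ∈ range N, (g n * (r : ℂ) ^ n) *
      Complex.exp (2 * Real.pi * Complex.I * (j * n / N))‖ ^ 2 ≤ (K + 1) ^ 2 := by
    intro j _
    set z : ℂ := (r : ℂ) * Complex.exp (2 * Real.pi * Complex.I * (j / N)) with hz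
    have hexp : ‖Complex.exp (2 * Real.pi * Complex.I * (j / N))‖ = 1 := by
      have : (2 * Real.pi * Complex.I * (j / N) : ℂ) = ((2 * Real.pi * (j / N) : ℝ) : ℂ) * Complex.I := by
        push_cast; ring
      rw [this, Complex.norm_exp_ofReal_mul_I]
    have hzn : ‖z‖ = ‖(r : ℂ)‖ := by rw [hz, norm_mul, hexp, mul_one]
    have hz1 : ‖z‖ < 1 := by rw [hzn]; exact hrn
    have hzp : ∀ n : ℕ, (g n * (r : ℂ) ^ n) * Complex.exp (2 * Real.pi * Complex.I * (j * n / N)) =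
        g n * z ^ n := by
      intro n
      have h2 : Complex.exp (2 * Real.pi * Complex.I * (j * n / N)) =
          (Complex.exp (2 * Real.pi * Complex.I * (j / N))) ^ n := by
        rw [← Complex.exp_nat_mul]
        congr 1
        ring
      rw [h2, hz, mul_pow]
      ring
    have hSz : Summable (fun n => g n * z ^ n) := (BDD_summable g M hg z hz1).of_norm
    have hsplit := hSz.sum_add_tsum_nat_add N
    have hsum : ∑ n ∈ range N, (g n * (r : ℂ) ^ n) *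
        Complex.exp (2 * Real.pi * Complex.I * (j * n / N)) = ∑ n ∈ range N, g n * z ^ n :=
      sum_congr rfl (fun n _ => hzp n)
    have htl : ‖∑' n, g (n + N) * z ^ (n + N)‖ ≤ 1 := by
      have hSn : Summable (fun n => ‖g (n + N) * z ^ (n + N)‖) :=
        (summable_nat_add_iff N).2 (BDD_summable g M hg z hz1)
      have h3 := norm_tsum_le_tsum_norm hSn
      have h4 : ∀ n, ‖g (n + N) * z ^ (n + N)‖ = ‖g (n + N) * (r : ℂ) ^ (n + N)‖ := by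
        intro n
        rw [norm_mul, norm_mul, norm_pow, norm_pow, hzn]
      have h5 : ∑' n, ‖g (n + N) * z ^ (n + N)‖ = ∑' n, ‖g (n + N) * (r : ℂ) ^ (n + N)‖ :=
        tsum_congr h4
      rw [h5] at h3
      exact h3.trans hN1.le
    have hfin : ‖∑ n ∈ range N, g n * z ^ n‖ ≤ K + 1 := by
      have h6 : ∑ n ∈ range N, g n * z ^ n = (∑' n, g n * z ^ n) - ∑' n, g (n + N) * z ^ (n + N) :=
        eq_sub_of_add_eq hsplit
      rw [h6]
      exact (norm_sub_le _ _).trans (add_le_add (hK z hz1) htl)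
    rw [hsum]
    exact pow_le_pow_left₀ (norm_nonneg _) hfin 2
  have hle : (N : ℝ) * ∑ n ∈ range N, ‖g n * (r : ℂ) ^ n‖ ^ 2 ≤ N * (K + 1) ^ 2 := by
    rw [← hP]
    calc _ ≤ ∑ _j ∈ range N, (K + 1) ^ 2 := sum_le_sum hterm
      _ = N * (K + 1) ^ 2 := by simp
  have hle2 : ∑ n ∈ range N, ‖g n * (r : ℂ) ^ n‖ ^ 2 ≤ (K + 1) ^ 2 := le_of_mul_le_mul_left hle hNpos
  have heq : ∀ n : ℕ, ‖g n * (r : ℂ) ^ n‖ ^ 2 = ‖g n‖ ^ 2 * r ^ (2 * n) := by
    intro n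
    rw [norm_mul, norm_pow, Complex.norm_real, Real.norm_eq_abs, abs_of_pos hr0, mul_pow, ← pow_mul, mul_comm n 2]
  calc ∑ n ∈ range m, ‖g n‖ ^ 2 * r ^ (2 * n) ≤ ∑ n ∈ range N, ‖g n‖ ^ 2 * r ^ (2 * n) := by
        refine sum_le_sum_of_subset_of_nonneg (range_mono hNm') (fun n _ _ => ?_)
        positivity
    _ = ∑ n ∈ range N, ‖g n * (r : ℂ) ^ n‖ ^ 2 := sum_congr rfl (fun n _ => (heq n).symm)
    _ ≤ (K + 1) ^ 2 := hle2

lemma BDD_one (hPAR : PAR_stmt) (g : ℕ → ℂ) (M K : ℝ) (hg : ∀ n, ‖g n‖ ≤ M)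
    (hK : ∀ z : ℂ, ‖z‖ < 1 → ‖∑' n, g n * z ^ n‖ ≤ K) (m : ℕ) :
    ∑ n ∈ range m, ‖g n‖ ^ 2 ≤ (K + 1) ^ 2 := by
  have hc : Continuous (fun r : ℝ => ∑ n ∈ range m, ‖g n‖ ^ 2 * r ^ (2 * n)) := by
    refine continuous_finsetSum _ (fun n _ => ?_)
    exact continuous_const.mul (continuous_pow (2 * n))
  have ht : Tendsto (fun r : ℝ => ∑ n ∈ range m, ‖g n‖ ^ 2 * r ^ (2 * n)) (𝓝[<] (1 : ℝ))
      (𝓝 (∑ n ∈ range m, ‖g n‖ ^ 2 * (1 : ℝ) ^ (2 * n))) :=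
    (hc.tendsto 1).mono_left nhdsWithin_le_nhds
  have hev : ∀ᶠ r : ℝ in 𝓝[<] (1 : ℝ), ∑ n ∈ range m, ‖g n‖ ^ 2 * r ^ (2 * n) ≤ (K + 1) ^ 2 := by
    have h1 : Set.Ioo (0 : ℝ) 1 ∈ 𝓝[<] (1 : ℝ) := Ioo_mem_nhdsLT one_pos
    filter_upwards [h1] with r hr
    exact BDD_radius hPAR g M K hg hK r hr.1 hr.2 m
  have h := le_of_tendsto ht hev
  simpa using h

theorem BDD (hPAR : PAR_stmt) : BDD_stmt := by
  intro G M K hM hEV
  set g : ℕ → ℂ := fun n => ((PowerSeries.coeff n G : ℤ) : ℂ) with hgdef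
  have hK : ∀ z : ℂ, ‖z‖ < 1 → ‖∑' n, g n * z ^ n‖ ≤ K := by
    intro z hz
    refine hEV z _ hz ⟨BDD_summable g M hM z hz, ?_⟩
    exact (BDD_summable g M hM z hz).of_norm.hasSum
  have hone := BDD_one hPAR g M K hM hK
  have hfin : {n : ℕ | PowerSeries.coeff n G ≠ 0}.Finite := by
    by_contra hinf
    have hinf' : {n : ℕ | PowerSeries.coeff n G ≠ 0}.Infinite := hinf
    obtain ⟨c, hc⟩ := exists_nat_gt ((K + 1) ^ 2)
    obtain ⟨T, hT, hTc⟩ := hinf'.exists_subset_card_eq c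
    have hsub : T ⊆ range (T.sup id + 1) := by
      intro n hn
      rw [mem_range]
      exact Nat.lt_succ_of_le (Finset.le_sup (f := id) hn)
    have h1 : (c : ℝ) ≤ ∑ n ∈ T, ‖g n‖ ^ 2 := by
      have : ∑ _n ∈ T, (1 : ℝ) = c := by simp [hTc]
      rw [← this]
      refine sum_le_sum (fun n hn => ?_)
      have hne : PowerSeries.coeff n G ≠ 0 := hT hn
      have h2 : (1 : ℝ) ≤ ‖g n‖ := by
        rw [hgdef]
        simp only [Complex.norm_intCast]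
        exact_mod_cast Int.one_le_abs hne
      exact one_le_pow₀ h2
    have h3 : ∑ n ∈ T, ‖g n‖ ^ 2 ≤ ∑ n ∈ range (T.sup id + 1), ‖g n‖ ^ 2 :=
      sum_le_sum_of_subset_of_nonneg hsub (fun n _ _ => by positivity)
    have h4 := hone (T.sup id + 1)
    linarith
  obtain ⟨B, hB⟩ := hfin.bddAbove
  refine ⟨PowerSeries.trunc (B + 1) G, ?_⟩
  ext n
  rw [Polynomial.coeff_coe, PowerSeries.coeff_trunc]
  split_ifs with h
  · rfl
  · by_contra hne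
    exact h (Nat.lt_succ_of_le (hB hne))

end Pool.Agent.helper18.HG
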