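import Pool.Agent.helper18.HG.Spec

set_option autoImplicit false

namespace Pool.Agent.helper18.HG

open Finset

/-- Bound for the Taylor coefficients at `1`. -/
lemma TAY_coeff (P : Polynomial ℤ) (d : ℕ) (H : ℝ) (hd : P.natDegree ≤ d)
    (hH : ∀ i, |(P.coeff i : ℝ)| ≤ H) (j : ℕ) :
    |((Polynomial.taylor 1 P).coeff j : ℝ)| ≤ ((d : ℝ) + 1) * 2 ^ d * H := by
  have hH0 : 0 ≤ H := le_trans (abs_nonneg _) (hH 0)
  have h1 : (Polynomial.taylor 1 P).coeff j = ∑ i ∈ range (d + 1), (i.choose j : ℤ) * P.coeff i := by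
    rw [Polynomial.taylor_coeff, Polynomial.hasseDeriv_apply, Polynomial.sum_def, Polynomial.eval_finsetSum]
    have h2 : ∀ i ∈ P.support, Polynomial.eval 1 (Polynomial.monomial (i - j) ((i.choose j : ℤ) * P.coeff i)) =
        (i.choose j : ℤ) * P.coeff i := by
      intro i _
      rw [Polynomial.eval_monomial, one_pow, mul_one]
    rw [Finset.sum_congr rfl h2]
    refine Finset.sum_subset ?_ ?_
    · intro i hi
      rw [mem_range]
      exact Nat.lt_succ_of_le ((Polynomial.le_natDegree_of_mem_supp i hi).trans hd)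
    · intro i _ hi
      rw [Polynomial.notMem_support_iff.1 hi, mul_zero]
  rw [h1]
  push_cast
  calc |∑ i ∈ range (d + 1), ((i.choose j : ℕ) : ℝ) * (P.coeff i : ℝ)|
      ≤ ∑ i ∈ range (d + 1), |((i.choose j : ℕ) : ℝ) * (P.coeff i : ℝ)| := abs_sum_le_sum_abs _ _
    _ ≤ ∑ _i ∈ range (d + 1), 2 ^ d * H := by
        refine sum_le_sum (fun i hi => ?_)
        rw [abs_mul, abs_of_nonneg (Nat.cast_nonneg _)]
        have h3 : ((i.choose j : ℕ) : ℝ) ≤ 2 ^ d := by
          have h4 : i.choose j ≤ 2 ^ d :=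
            (Nat.choose_le_two_pow i j).trans (Nat.pow_le_pow_right (by norm_num) (Nat.lt_succ_iff.1 (mem_range.1 hi)))
          exact_mod_cast h4
        exact mul_le_mul h3 (hH i) (abs_nonneg _) (by positivity)
    _ = ((d : ℝ) + 1) * 2 ^ d * H := by
        rw [sum_const, card_range, nsmul_eq_mul]
        push_cast
        ring

theorem TAY : TAY_stmt := by
  intro P d H δ hP hd hH hδ0 hδ1 hlt hzero
  have hH0 : 0 ≤ H := le_trans (abs_nonneg _) (hH 0)
  set Q : Polynomial ℤ := Polynomial.taylor 1 P with hQ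
  have hQ0 : Q ≠ 0 := by
    intro h
    apply hP
    apply Polynomial.taylor_injective (1 : ℤ)
    rw [← hQ, h, map_zero]
  have hQd : Q.natDegree ≤ d := by rw [hQ, Polynomial.natDegree_taylor]; exact hd
  have hsub : Q.comp (Polynomial.X - Polynomial.C 1) = P := by
    rw [hQ, Polynomial.taylor_apply, Polynomial.comp_assoc]
    simp
  have hev : Polynomial.aeval (1 - δ) P = ∑ j ∈ range (d + 1), (Q.coeff j : ℝ) * (-δ) ^ j := by
    rw [← hsub, Polynomial.aeval_comp]
    have h1 : Polynomial.aeval (1 - δ) (Polynomial.X - Polynomial.C 1 : Polynomial ℤ) = -δ := by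
      simp
    rw [h1, Polynomial.aeval_eq_sum_range' (Nat.lt_succ_of_le hQd)]
    refine sum_congr rfl (fun j _ => ?_)
    rw [zsmul_eq_mul]
  -- the least index
  have hex : ∃ j, Q.coeff j ≠ 0 := by
    by_contra hcon
    push Not at hcon
    exact hQ0 (Polynomial.ext (fun j => by rw [hcon j, Polynomial.coeff_zero]))
  classical
  set m := Nat.find hex with hm
  have hm1 : Q.coeff m ≠ 0 := Nat.find_spec hex
  have hm2 : ∀ j, j < m → Q.coeff j = 0 := fun j hj => not_not.1 (Nat.find_min hex hj)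
  have hmd : m ≤ d := (Polynomial.le_natDegree_of_ne_zero hm1).trans hQd
  have hmem : m ∈ range (d + 1) := mem_range.2 (Nat.lt_succ_of_le hmd)
  rw [hev, ← add_sum_erase _ _ hmem] at hzero
  have habs : |(Q.coeff m : ℝ) * (-δ) ^ m| = |∑ j ∈ (range (d + 1)).erase m, (Q.coeff j : ℝ) * (-δ) ^ j| := by
    rw [eq_neg_of_add_eq_zero_left hzero, abs_neg]
  have hlow : δ ^ m ≤ |(Q.coeff m : ℝ) * (-δ) ^ m| := by
    rw [abs_mul, abs_pow, abs_neg, abs_of_pos hδ0]
    have h2 : (1 : ℝ) ≤ |(Q.coeff m : ℝ)| := by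
      have h3 := Int.one_le_abs hm1
      exact_mod_cast h3
    exact le_mul_of_one_le_left (pow_nonneg hδ0.le m) h2
  have hup : |∑ j ∈ (range (d + 1)).erase m, (Q.coeff j : ℝ) * (-δ) ^ j| ≤
      ((d : ℝ) + 1) * (((d : ℝ) + 1) * 2 ^ d * H * δ ^ (m + 1)) := by
    calc |∑ j ∈ (range (d + 1)).erase m, (Q.coeff j : ℝ) * (-δ) ^ j|
        ≤ ∑ j ∈ (range (d + 1)).erase m, |(Q.coeff j : ℝ) * (-δ) ^ j| := abs_sum_le_sum_abs _ _
      _ ≤ ∑ _j ∈ (range (d + 1)).erase m, ((d : ℝ) + 1) * 2 ^ d * H * δ ^ (m + 1) := by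
          refine sum_le_sum (fun j hj => ?_)
          obtain ⟨hjm, _⟩ := mem_erase.1 hj
          rw [abs_mul, abs_pow, abs_neg, abs_of_pos hδ0]
          rcases lt_or_gt_of_ne hjm with h | h
          · rw [hm2 j h]
            simp only [Int.cast_zero, abs_zero, zero_mul]
            positivity
          · exact mul_le_mul (TAY_coeff P d H hd hH j) (pow_le_pow_of_le_one hδ0.le hδ1 h)
              (by positivity) (by positivity)
      _ ≤ ((d : ℝ) + 1) * (((d : ℝ) + 1) * 2 ^ d * H * δ ^ (m + 1)) := by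
          rw [sum_const, nsmul_eq_mul, card_erase_of_mem hmem, card_range]
          have h5 : ((d + 1 - 1 : ℕ) : ℝ) ≤ (d : ℝ) + 1 := by
            rw [Nat.add_sub_cancel]
            linarith
          exact mul_le_mul_of_nonneg_right h5 (by positivity)
  have hδm : 0 < δ ^ m := pow_pos hδ0 m
  have hfin : ((d : ℝ) + 1) * (((d : ℝ) + 1) * 2 ^ d * H * δ ^ (m + 1)) =
      (((d : ℝ) + 1) ^ 2 * 2 ^ d * H * δ) * δ ^ m := by
    rw [pow_succ δ m]
    ring
  have hcontra : δ ^ m ≤ (((d : ℝ) + 1) ^ 2 * 2 ^ d * H * δ) * δ ^ m := by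
    rw [← hfin]
    exact hlow.trans (habs ▸ hup)
  have hlt2 : (((d : ℝ) + 1) ^ 2 * 2 ^ d * H * δ) * δ ^ m < 1 * δ ^ m := mul_lt_mul_of_pos_right hlt hδm
  rw [one_mul] at hlt2
  exact absurd hcontra (not_le.2 hlt2)

end Pool.Agent.helper18.HG
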